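import Pool.Agent.H596E.Univ

set_option autoImplicit false
set_option linter.all false

open scoped commutatorElement

namespace Pool.Agent.Results.MP_6d9b00_al.ClassBound

open Pool.Agent.H596E

/-- Let `T` be a finite `p`-group and `A ≤ Aut T` elementary abelian of order `p^2` such that every
element of `T ⋊ A` outside `T` has order `p`.  If `T ⋊ A` has nilpotency class at most `3p - 3`,
then `T` has exponent dividing `p`. -/
theorem result (p : ℕ) (hp : p.Prime) (T : Type) [Group T] [Finite T] (hT : IsPGroup p T)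
    (A : Subgroup (MulAut T)) (hA : Nat.card A = p ^ 2) (hA' : ∀ a : A, a ^ p = 1)
    (h : ∀ (t : T) (a : A), a ≠ 1 →
      orderOf (⟨t, a⟩ : SemidirectProduct T A A.subtype) = p)
    (hcl : (⊤ : Subgroup (SemidirectProduct T A A.subtype)).lowerCentralSeries (3 * p - 3) = ⊥) :
    ∀ t : T, t ^ p = 1 := by
  haveI := Fact.mk hp
  have hcomm : ∀ a b : A, Commute a b := fun a b => (IsPGroup.commutative_of_card_eq_prime_sq hA) a b
  have h1 : 1 < Nat.card A := by rw [hA]; exact Nat.one_lt_pow (by norm_num) hp.one_lt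
  haveI : Finite A := Nat.finite_of_card_ne_zero (by omega)
  haveI : Nontrivial A := Finite.one_lt_card_iff_nontrivial.1 h1
  obtain ⟨a1, ha1⟩ := exists_ne (1 : A)
  have ho : ∀ a : A, a ≠ 1 → orderOf a = p := fun a ha => orderOf_eq_prime (hA' a) ha
  have h2 : (Subgroup.zpowers a1) ≠ ⊤ := by
    intro h3
    have h4 : Nat.card (Subgroup.zpowers a1) = p := by rw [Nat.card_zpowers, ho a1 ha1]
    rw [h3, Subgroup.card_top, hA] at h4
    have := hp.two_le
    nlinarith
  obtain ⟨a2, ha2⟩ : ∃ a2 : A, a2 ∉ Subgroup.zpowers a1 := by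
    by_contra h3
    exact h2 ((Subgroup.eq_top_iff' _).2 (fun x => by
      by_contra hx
      exact h3 ⟨x, hx⟩))
  have hne : ∀ i j : ℤ, ¬ ((p : ℤ) ∣ i ∧ (p : ℤ) ∣ j) → a1 ^ i * a2 ^ j ≠ 1 := by
    intro i j hij h3
    apply hij
    have h4 : (p : ℤ) ∣ j := by
      by_contra hj
      apply ha2
      have hcop : IsCoprime (p : ℤ) j :=
        (Int.isCoprime_iff_gcd_eq_one).2 (by
          rw [← Int.isCoprime_iff_gcd_eq_one]
          exact (Prime.coprime_iff_not_dvd (Nat.prime_iff_prime_int.1 hp)).2 hj)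
      obtain ⟨u, v, huv⟩ := hcop
      have h5 : a2 ^ j = a1 ^ (-i) := by
        rw [zpow_neg]
        exact eq_inv_of_mul_eq_one_right h3
      have h6 : a2 = a2 ^ (u * (p : ℤ) + v * j) := by rw [huv, zpow_one]
      rw [h6, zpow_add, mul_comm u, mul_comm v, zpow_mul, zpow_mul, zpow_natCast, hA' a2, one_zpow,
        one_mul, h5]
      exact Subgroup.zpow_mem _ (Subgroup.zpow_mem _ (Subgroup.mem_zpowers a1) _) _
    refine ⟨?_, h4⟩
    obtain ⟨d, rfl⟩ := h4
    rw [zpow_mul, zpow_natCast, hA' a2, one_zpow, mul_one] at h3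
    have h5 := orderOf_dvd_iff_zpow_eq_one.2 h3
    rw [ho a1 ha1] at h5
    exact h5
  set P := SemidirectProduct T A A.subtype with hPdef
  set T' : Subgroup P := (SemidirectProduct.inl : T →* P).range with hT'
  have hT'n : T'.Normal := by
    have e : T' = (SemidirectProduct.rightHom : P →* A).ker :=
      SemidirectProduct.range_inl_eq_ker_rightHom
    rw [e]
    infer_instance
  have H : Hyp p T' (SemidirectProduct.inr a1 : P) (SemidirectProduct.inr a2 : P) := by
    refine ⟨(hcomm a1 a2).map _, ?_⟩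
    rintro _ ⟨t, rfl⟩ i j hij
    have e1 : (SemidirectProduct.inl t : P) * (SemidirectProduct.inr a1 ^ i *
        SemidirectProduct.inr a2 ^ j) = ⟨t, a1 ^ i * a2 ^ j⟩ := by
      rw [← map_zpow, ← map_zpow, ← map_mul]
      exact (SemidirectProduct.mk_eq_inl_mul_inr (a1 ^ i * a2 ^ j) t).symm
    rw [e1]
    have e2 := h t (a1 ^ i * a2 ^ j) (hne i j hij)
    have e3 := pow_orderOf_eq_one (⟨t, a1 ^ i * a2 ^ j⟩ : P)
    rw [e2] at e3
    exact e3
  obtain ⟨M, hM⟩ := IsPGroup.iff_card.1 hT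
  have hexp : ∃ M : ℕ, ∀ t ∈ T', t ^ (p ^ M) = 1 := by
    refine ⟨M, ?_⟩
    rintro _ ⟨t, rfl⟩
    rw [← map_pow, ← hM, pow_card_eq_one', map_one]
  intro t
  have hfin := claim p hp (3 * p - 3) (le_refl _) P T' _ _ hT'n H hcl hexp
    (SemidirectProduct.inl t) ⟨t, rfl⟩
  rw [← map_pow] at hfin
  have h7 : (SemidirectProduct.inl (t ^ p) : P) = SemidirectProduct.inl 1 := by
    rw [hfin, map_one]
  exact SemidirectProduct.inl_injective h7

end Pool.Agent.Results.MP_6d9b00_al.ClassBound
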