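import Pool.Agent.H596E.Orbit

set_option autoImplicit false
set_option linter.all false

open scoped commutatorElement

namespace Pool.Agent.Results.MP_6d9b00_al.OrbitClass

open Pool.Agent.H596E Pool.Agent.H596Q

/-- Let `T` be a finite `p`-group and `A ≤ Aut T` elementary abelian of order `p^2` such that every
element of `T ⋊ A` outside `T` has order `p`.
(1) If `t ∈ T` and the subgroup generated by the `A`-orbit of `t` has nilpotency class at most
`p - 1`, then `t^p = 1`.
(2) If `T` has class at most `p - 1`, then `T` has exponent dividing `p`.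
(3) If `p ≤ 3`, then `T` has exponent dividing `p`. -/
theorem result (p : ℕ) (hp : p.Prime) (T : Type) [Group T] [Finite T] (hT : IsPGroup p T)
    (A : Subgroup (MulAut T)) (hA : Nat.card A = p ^ 2) (hA' : ∀ a : A, a ^ p = 1)
    (h : ∀ (t : T) (a : A), a ≠ 1 →
      orderOf (⟨t, a⟩ : SemidirectProduct T A A.subtype) = p) :
    (∀ t : T, (⊤ : Subgroup (Subgroup.closure {x : T | ∃ a : A, x = (a : MulAut T) t})
      ).lowerCentralSeries (p - 1) = ⊥ → t ^ p = 1) ∧
    ((⊤ : Subgroup T).lowerCentralSeries (p - 1) = ⊥ → ∀ t : T, t ^ p = 1) ∧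
    (p ≤ 3 → ∀ t : T, t ^ p = 1) := by
  haveI := Fact.mk hp
  have hcomm : ∀ a b : A, Commute a b := fun a b => (IsPGroup.commutative_of_card_eq_prime_sq hA) a b
  have h1 : 1 < Nat.card A := by rw [hA]; exact Nat.one_lt_pow (by norm_num) hp.one_lt
  haveI : Finite A := Nat.finite_of_card_ne_zero (by omega)
  haveI : Nontrivial A := Finite.one_lt_card_iff_nontrivial.1 h1
  obtain ⟨a1, ha1⟩ := exists_ne (1 : A)
  have ho : ∀ a : A, a ≠ 1 → orderOf a = p := fun a ha => orderOf_eq_prime (hA' a) ha
  have h2 : (Subgroup.zpowers a1) ≠ ⊤ := by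
    intro h3
    have h4 : Nat.card (Subgroup.zpowers a1) = p := by rw [Nat.card_zpowers, ho a1 ha1]
    rw [h3, Subgroup.card_top, hA] at h4
    have := hp.two_le
    nlinarith
  obtain ⟨a2, ha2⟩ : ∃ a2 : A, a2 ∉ Subgroup.zpowers a1 := by
    by_contra h3
    exact h2 ((Subgroup.eq_top_iff' _).2 (fun x => by
      by_contra hx
      exact h3 ⟨x, hx⟩))
  have hpow : ∀ j : ℤ, ¬ (p : ℤ) ∣ j → ∀ a : A, a2 ^ j = a → a ∈ Subgroup.zpowers a1 → False := by
    intro j hj a haj haz
    apply ha2
    have hcop : IsCoprime (p : ℤ) j :=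
      (Prime.coprime_iff_not_dvd (Nat.prime_iff_prime_int.1 hp)).2 hj
    obtain ⟨u, v, huv⟩ := hcop
    have h6 : a2 = a2 ^ (u * (p : ℤ) + v * j) := by rw [huv, zpow_one]
    rw [h6, zpow_add, mul_comm u, mul_comm v, zpow_mul, zpow_mul, zpow_natCast, hA' a2, one_zpow,
      one_mul, haj]
    exact Subgroup.zpow_mem _ haz _
  have ha21 : a2 ≠ 1 := fun h3 => ha2 (by rw [h3]; exact Subgroup.one_mem _)
  have h12 : ∀ m : ℕ, a1 * a2 ^ m ≠ 1 := by
    intro m h3
    by_cases hm : p ∣ m
    · obtain ⟨d, rfl⟩ := hm
      rw [pow_mul, hA' a2, one_pow, mul_one] at h3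
      exact ha1 h3
    · refine hpow (m : ℤ) (by rw [Int.natCast_dvd_natCast]; exact hm) (a1⁻¹) ?_
        (Subgroup.inv_mem _ (Subgroup.mem_zpowers a1))
      rw [zpow_natCast]
      exact eq_inv_of_mul_eq_one_right h3
  have h2l : ∀ l : ℕ, 1 ≤ l → l < p → a2 ^ l ≠ 1 := by
    intro l hl1 hl2 h3
    have h4 := orderOf_dvd_of_pow_eq_one h3
    rw [ho a2 ha21] at h4
    have := Nat.le_of_dvd (by omega) h4
    omega
  have hN : ∀ (t : T) (a : A), a ≠ 1 →
      ((List.range p).map (fun l => ((a ^ l : A) : MulAut T) t)).prod = 1 := by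
    intro t a ha
    have e0 := pow_orderOf_eq_one (⟨t, a⟩ : SemidirectProduct T A A.subtype)
    rw [h t a ha] at e0
    have e1 : (⟨t, a⟩ : SemidirectProduct T A A.subtype) = SemidirectProduct.inl t *
        SemidirectProduct.inr a := SemidirectProduct.mk_eq_inl_mul_inr a t
    rw [e1, prod_id, ← map_pow, hA' a, map_one, mul_one] at e0
    have e2 : ∀ l : ℕ, (SemidirectProduct.inr a : SemidirectProduct T A A.subtype) ^ l *
        SemidirectProduct.inl t * ((SemidirectProduct.inr a) ^ l)⁻¹ =
        SemidirectProduct.inl (((a ^ l : A) : MulAut T) t) := by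
      intro l
      rw [← map_pow, ← map_inv]
      exact (SemidirectProduct.inl_aut (φ := A.subtype) (a ^ l) t).symm
    have e3 : (fun l : ℕ => (SemidirectProduct.inr a : SemidirectProduct T A A.subtype) ^ l *
        SemidirectProduct.inl t * ((SemidirectProduct.inr a) ^ l)⁻¹) =
        fun l : ℕ => SemidirectProduct.inl (((a ^ l : A) : MulAut T) t) := by
      funext l
      exact e2 l
    rw [e3] at e0
    have e4 : (SemidirectProduct.inl ((List.range p).map
        (fun l => ((a ^ l : A) : MulAut T) t)).prod : SemidirectProduct T A A.subtype) =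
        SemidirectProduct.inl 1 := by
      rw [map_list_prod, List.map_map, map_one]
      exact e0
    exact SemidirectProduct.inl_injective e4
  have hexp : ∃ M : ℕ, ∀ t : T, t ^ (p ^ M) = 1 := by
    obtain ⟨M, hM⟩ := IsPGroup.iff_card.1 hT
    exact ⟨M, fun t => by rw [← hM, pow_card_eq_one']⟩
  have hOinv : ∀ t : T, ∀ a : A, ∀ x ∈ Subgroup.closure {x : T | ∃ a : A, x = (a : MulAut T) t},
      (a : MulAut T) x ∈ Subgroup.closure {x : T | ∃ a : A, x = (a : MulAut T) t} := by
    intro t a x hx
    induction hx using Subgroup.closure_induction with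
    | mem x hx =>
      obtain ⟨b, rfl⟩ := hx
      apply Subgroup.subset_closure
      exact ⟨a * b, rfl⟩
    | one => rw [map_one]; exact Subgroup.one_mem _
    | mul x y _ _ hx hy => rw [map_mul]; exact Subgroup.mul_mem _ hx hy
    | inv x _ hx => rw [map_inv]; exact Subgroup.inv_mem _ hx
  have part1 : ∀ t : T, (⊤ : Subgroup (Subgroup.closure {x : T | ∃ a : A, x = (a : MulAut T) t})
      ).lowerCentralSeries (p - 1) = ⊥ → t ^ p = 1 := by
    intro t hcl
    exact orbit_main hp hexp hN hcomm a1 a2 h12 h2l _ (hOinv t) hcl t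
      (Subgroup.subset_closure ⟨1, rfl⟩)
  refine ⟨part1, ?_, ?_⟩
  · intro hcl t
    apply part1
    rw [eq_bot_iff]
    intro x hx
    have h5 : ∀ n, ∀ x : Subgroup.closure {x : T | ∃ a : A, x = (a : MulAut T) t},
        x ∈ (⊤ : Subgroup (Subgroup.closure {x : T | ∃ a : A, x = (a : MulAut T) t})
        ).lowerCentralSeries n → (x : T) ∈ (⊤ : Subgroup T).lowerCentralSeries n := by
      intro n
      induction n with
      | zero => intro x _; exact Subgroup.mem_top _
      | succ n ih =>
        intro x hx
        have h6 : (⊤ : Subgroup (Subgroup.closure {x : T | ∃ a : A, x = (a : MulAut T) t})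
          ).lowerCentralSeries (n + 1) ≤ ((⊤ : Subgroup T).lowerCentralSeries (n + 1)).comap
            (Subgroup.closure {x : T | ∃ a : A, x = (a : MulAut T) t}).subtype := by
          rw [Subgroup.lowerCentralSeries_succ, Subgroup.commutator_le]
          intro u hu v _
          rw [Subgroup.mem_comap, map_commutatorElement, Subgroup.lowerCentralSeries_succ]
          exact Subgroup.commutator_mem_commutator (ih u hu) (Subgroup.mem_top _)
        exact h6 hx
    have h6 := h5 _ x hx
    rw [hcl, Subgroup.mem_bot] at h6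
    rw [Subgroup.mem_bot]
    exact Subtype.ext h6
  · intro hp3 t
    apply part1
    have hc1 : ∀ x y : Subgroup.closure {x : T | ∃ a : A, x = (a : MulAut T) t}, Commute x y := by
      intro x y
      have hgen : ∀ x ∈ {x : T | ∃ a : A, x = (a : MulAut T) t},
          ∀ y ∈ {x : T | ∃ a : A, x = (a : MulAut T) t}, Commute x y := by
        rintro _ ⟨a, rfl⟩ _ ⟨b, rfl⟩
        have := orbit_comm hp hp3 hA' hN ((a : MulAut T) t) (b * a⁻¹)
        have e : ((b * a⁻¹ : A) : MulAut T) ((a : MulAut T) t) = (b : MulAut T) t := by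
          rw [← MulAut.mul_apply, ← Subgroup.coe_mul, inv_mul_cancel_right]
        rw [e] at this
        exact this
      have step1 : ∀ x ∈ {x : T | ∃ a : A, x = (a : MulAut T) t}, ∀ y ∈ Subgroup.closure
          {x : T | ∃ a : A, x = (a : MulAut T) t}, Commute x y := by
        intro x hx y hy
        induction hy using Subgroup.closure_induction with
        | mem y hy => exact hgen x hx y hy
        | one => exact Commute.one_right x
        | mul y z _ _ h1 h2 => exact h1.mul_right h2
        | inv y _ h1 => exact h1.inv_right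
      have step2 : ∀ x ∈ Subgroup.closure {x : T | ∃ a : A, x = (a : MulAut T) t},
          ∀ y ∈ Subgroup.closure {x : T | ∃ a : A, x = (a : MulAut T) t}, Commute x y := by
        intro x hx y hy
        induction hx using Subgroup.closure_induction with
        | mem x hx => exact step1 x hx y hy
        | one => exact Commute.one_left y
        | mul x z _ _ h1 h2 => exact h1.mul_left h2
        | inv x _ h1 => exact h1.inv_left
      exact Subtype.ext (step2 x x.2 y y.2)
    have hc2 : (⊤ : Subgroup (Subgroup.closure {x : T | ∃ a : A, x = (a : MulAut T) t})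
        ).lowerCentralSeries 1 = ⊥ := by
      rw [eq_bot_iff]
      show (⊤ : Subgroup (Subgroup.closure {x : T | ∃ a : A, x = (a : MulAut T) t})
        ).lowerCentralSeries (0 + 1) ≤ ⊥
      rw [Subgroup.lowerCentralSeries_succ, Subgroup.commutator_le]
      intro u _ v _
      rw [Subgroup.mem_bot]
      exact commutatorElement_eq_one_iff_commute.2 (hc1 u v)
    rw [eq_bot_iff, ← hc2]
    exact Subgroup.lowerCentralSeries_antitone _ (by have := hp.two_le; omega)

end Pool.Agent.Results.MP_6d9b00_al.OrbitClass
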